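import Pool.Agent.Helper89.HY.St2

/-!
# Project HY2, module WTN: Fejer weights on `ZMod n`
-/

set_option autoImplicit false

noncomputable section

namespace Pool.Agent.Helper2.HY

open Finset Matrix
open Pool.Agent.Helper89.HY

private def ae (n : ℕ) [NeZero n] (x : ZMod n) : ℂ := ZMod.stdAddChar x

private theorem ae_add {p : ℕ} [NeZero p] (x y : ZMod p) :
    ae p (x + y) = ae p x * ae p y := by
  unfold ae
  exact AddChar.map_add_eq_mul _ _ _

private theorem ae_conj {p : ℕ} [NeZero p] (x : ZMod p) :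
    (starRingEnd ℂ) (ae p x) = ae p (-x) := by
  unfold ae
  exact (AddChar.map_neg_eq_conj _ _).symm

private theorem ae_sum {p : ℕ} [NeZero p] (t : ZMod p) :
    ∑ m : ZMod p, ae p (m * t) = if t = 0 then (p : ℂ) else 0 := by
  have h := AddChar.sum_mulShift t (ZMod.isPrimitive_stdAddChar p)
  rw [ZMod.card] at h
  unfold ae
  rw [h]
  split_ifs <;> simp

private theorem cn_eq {p : ℕ} [NeZero p] (a : ZMod p) (L : ℕ) (m : ZMod p) :
    (cn p a L m : ℂ) = (∑ q ∈ range L ×ˢ range L,
      ae p (m * -(a * ((q.1 : ZMod p) - q.2)))) / (p * L) := by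
  have h0 : cn p a L m = ‖∑ j ∈ range L, ae p (m * a * (j : ZMod p))‖ ^ 2 / (p * L) := rfl
  rw [h0]
  push_cast
  congr 1
  rw [← Complex.conj_mul', map_sum, Finset.sum_mul_sum, ← Finset.sum_product']
  refine Finset.sum_congr rfl fun q _ => ?_
  rw [ae_conj, ← ae_add]
  congr 1
  ring

private theorem part2 {p : ℕ} [NeZero p] (a : ZMod p) (L : ℕ) (x : ZMod p) :
    (cw p a L x : ℂ) = ∑ m : ZMod p, (cn p a L m : ℂ) * ae p (m * x) := by
  have hp : (p : ℂ) ≠ 0 := by exact_mod_cast (NeZero.ne p)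
  have h1 : ∀ m : ZMod p, (cn p a L m : ℂ) * ae p (m * x) =
      (∑ q ∈ range L ×ˢ range L, ae p (m * (x - a * ((q.1 : ZMod p) - q.2)))) / (p * L) := by
    intro m
    rw [cn_eq, div_mul_eq_mul_div, Finset.sum_mul]
    congr 1
    refine Finset.sum_congr rfl fun q _ => ?_
    rw [← ae_add]
    congr 1
    ring
  rw [Finset.sum_congr rfl fun m _ => h1 m, ← Finset.sum_div, Finset.sum_comm]
  have h2 : ∀ q : ℕ × ℕ, ∑ m : ZMod p, ae p (m * (x - a * ((q.1 : ZMod p) - q.2))) =
      if a * ((q.1 : ZMod p) - q.2) = x then (p : ℂ) else 0 := by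
    intro q
    rw [ae_sum]
    refine if_congr ?_ rfl rfl
    rw [sub_eq_zero, eq_comm]
  rw [Finset.sum_congr rfl fun q _ => h2 q, ← Finset.sum_filter, Finset.sum_const, nsmul_eq_mul]
  unfold cw
  push_cast
  by_cases hL : (L : ℂ) = 0
  · rw [hL]
    simp
  · field_simp

private theorem cnt (g : ℕ) (L j : ℕ) :
    ((range L).filter fun j' : ℕ => j % g = j' % g).card ≤ L / g + 1 := by
  have h : ((range L).filter fun j' : ℕ => j % g = j' % g).card ≤ (range (L / g + 1)).card := by
    refine Finset.card_le_card_of_injOn (fun j' => j' / g) ?_ ?_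
    · intro j' hj'
      have h1 := (Finset.mem_filter.1 hj').1
      rw [Finset.mem_range] at h1
      simp only [Finset.coe_range, Set.mem_Iio]
      exact Nat.lt_succ_of_le (Nat.div_le_div_right h1.le)
    · intro u hu v hv huv
      have h1 := (Finset.mem_filter.1 hu).2
      have h2 := (Finset.mem_filter.1 hv).2
      have h4 : u % g = v % g := h1.symm.trans h2
      have h5 : u / g = v / g := huv
      rw [← Nat.div_add_mod u g, ← Nat.div_add_mod v g, h4, h5]
  rwa [Finset.card_range] at h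

private theorem ae_inj {n : ℕ} [NeZero n] (x : ZMod n) (h : ae n x = 1) : x = 0 := by
  have h1 : (ZMod.stdAddChar x : ℂ) = ZMod.stdAddChar (0 : ZMod n) := by
    rw [AddChar.map_zero_eq_one]
    exact h
  exact ZMod.injective_stdAddChar h1

open Classical in
/-- the annihilator -/
private def Fb {n : ℕ} [NeZero n] (b : ZMod n) : Finset (ZMod n) :=
  univ.filter fun m : ZMod n => b * m = 0

private theorem Fb_card {n : ℕ} [NeZero n] (b : ZMod n) : (Fb b).card ≤ Nat.gcd b.val n := by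
  classical
  have hn : 0 < n := Nat.pos_of_ne_zero (NeZero.ne n)
  have hg : 0 < Nat.gcd b.val n := Nat.gcd_pos_of_pos_right _ hn
  have h1 := IsAddCyclic.card_nsmul_eq_zero_le (α := ZMod n) hg
  refine le_trans (Finset.card_le_card ?_) h1
  intro m hm
  have hm' : b * m = 0 := (Finset.mem_filter.1 hm).2
  rw [Finset.mem_filter]
  refine ⟨Finset.mem_univ _, ?_⟩
  rw [nsmul_eq_mul]
  have h2 : ((Nat.gcd b.val n : ℕ) : ℤ) = b.val * Nat.gcdA b.val n + n * Nat.gcdB b.val n :=
    Nat.gcd_eq_gcd_ab _ _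
  have h3 : ((Nat.gcd b.val n : ℕ) : ZMod n) = b * (Nat.gcdA b.val n : ℤ) := by
    have h4 := congrArg (Int.cast : ℤ → ZMod n) h2
    rw [Int.cast_natCast, Int.cast_add, Int.cast_mul, Int.cast_mul, Int.cast_natCast,
      Int.cast_natCast, ZMod.natCast_self, zero_mul, add_zero, ZMod.natCast_zmod_val] at h4
    exact h4
  rw [h3, mul_right_comm, hm', zero_mul]

private theorem Fb_sum {n : ℕ} [NeZero n] (b t : ZMod n) :
    ∑ m ∈ Fb b, ae n (m * t) = if (∀ m ∈ Fb b, ae n (m * t) = 1) then ((Fb b).card : ℂ) else 0 := by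
  classical
  split_ifs with h
  · rw [Finset.sum_congr rfl h, Finset.sum_const, nsmul_eq_mul, mul_one]
  · push Not at h
    obtain ⟨m0, hm0, hne⟩ := h
    have hm0' : b * m0 = 0 := (Finset.mem_filter.1 hm0).2
    have h1 : ∑ m ∈ Fb b, ae n (m * t) = ∑ m ∈ Fb b, ae n ((m + m0) * t) := by
      symm
      refine Finset.sum_equiv (Equiv.addRight m0) ?_ ?_
      · intro m
        simp only [Fb, Finset.mem_filter, Finset.mem_univ, true_and, Equiv.coe_addRight]
        rw [mul_add, hm0', add_zero]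
      · intro m _
        rfl
    have h2 : ∑ m ∈ Fb b, ae n ((m + m0) * t) = ae n (m0 * t) * ∑ m ∈ Fb b, ae n (m * t) := by
      rw [Finset.mul_sum]
      refine Finset.sum_congr rfl fun m _ => ?_
      rw [add_mul, ae_add, mul_comm]
    rw [h2] at h1
    have h3 : (1 - ae n (m0 * t)) * ∑ m ∈ Fb b, ae n (m * t) = 0 := by
      linear_combination h1
    rcases mul_eq_zero.1 h3 with h4 | h4
    · exact absurd (sub_eq_zero.1 h4).symm hne
    · exact h4

private theorem all_one {n : ℕ} [NeZero n] (a : (ZMod n)ˣ) (b : ZMod n) (j j' : ℕ)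
    (h : ∀ m ∈ Fb b, ae n (m * -((a : ZMod n) * ((j : ZMod n) - j'))) = 1) :
    j % Nat.gcd b.val n = j' % Nat.gcd b.val n := by
  classical
  have hn : 0 < n := Nat.pos_of_ne_zero (NeZero.ne n)
  set g := Nat.gcd b.val n with hgd
  have hg : 0 < g := Nat.gcd_pos_of_pos_right _ hn
  have hgn : g ∣ n := Nat.gcd_dvd_right _ _
  have hgb : g ∣ b.val := Nat.gcd_dvd_left _ _
  obtain ⟨e, he⟩ := hgn
  obtain ⟨k, hk⟩ := hgb
  have hb : b = ((g * k : ℕ) : ZMod n) := by
    rw [← hk, ZMod.natCast_zmod_val]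
  have hmem : ((e : ℕ) : ZMod n) ∈ Fb b := by
    unfold Fb
    rw [Finset.mem_filter]
    refine ⟨Finset.mem_univ _, ?_⟩
    rw [hb, ← Nat.cast_mul]
    have : g * k * e = n * k := by
      conv_rhs => rw [he]
      ring
    rw [this, Nat.cast_mul, ZMod.natCast_self, zero_mul]
  have h1 := ae_inj _ (h _ hmem)
  have h2 : (a : ZMod n) * (((e : ℕ) : ZMod n) * ((j : ZMod n) - j')) = 0 := by
    linear_combination -h1
  have h3 : ((e : ℕ) : ZMod n) * ((j : ZMod n) - j') = 0 := by
    have h4 := congrArg (fun y => ((a⁻¹ : (ZMod n)ˣ) : ZMod n) * y) h2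
    simpa using h4
  have h5 : (((e : ℤ) * ((j : ℤ) - j') : ℤ) : ZMod n) = 0 := by
    push_cast
    exact h3
  rw [ZMod.intCast_zmod_eq_zero_iff_dvd] at h5
  have h6 : (e : ℤ) * (g : ℤ) ∣ (e : ℤ) * ((j : ℤ) - j') := by
    have : ((n : ℕ) : ℤ) = (e : ℤ) * g := by
      rw [he]
      push_cast
      ring
    rw [← this]
    exact h5
  have he0 : (e : ℤ) ≠ 0 := by
    intro hz
    have : e = 0 := by exact_mod_cast hz
    rw [this, mul_zero] at he
    omega
  have h7 : (g : ℤ) ∣ (j : ℤ) - j' := (mul_dvd_mul_iff_left he0).1 h6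
  have h8 : (j' : ℤ) ≡ j [ZMOD g] := (Int.modEq_iff_dvd).2 h7
  have h9 : j' ≡ j [MOD g] := (Int.natCast_modEq_iff).1 h8
  exact h9.symm

private theorem part3 {n : ℕ} [NeZero n] (a : (ZMod n)ˣ) (A : ℕ) (b : ZMod n) :
    ∑ m ∈ Fb b, cn n a (2 * A + 1) m ≤ (2 * (A : ℝ) + 1 + Nat.gcd b.val n) / n := by
  classical
  set L := 2 * A + 1 with hL
  set g := Nat.gcd b.val n with hgd
  have hn : 0 < n := Nat.pos_of_ne_zero (NeZero.ne n)
  have hg : 0 < g := Nat.gcd_pos_of_pos_right _ hn
  have hnR : (0 : ℝ) < n := by exact_mod_cast hn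
  have hgR : (0 : ℝ) < g := by exact_mod_cast hg
  have hLR : (0 : ℝ) < (L : ℝ) := by
    rw [hL]
    push_cast
    positivity
  -- the exact value
  set C : ℕ := ((range L ×ˢ range L).filter fun q : ℕ × ℕ =>
    ∀ m ∈ Fb b, ae n (m * -((a : ZMod n) * ((q.1 : ZMod n) - q.2))) = 1).card with hC
  have hval : ((∑ m ∈ Fb b, cn n a L m : ℝ) : ℂ) = (((Fb b).card * C / (n * L) : ℝ) : ℂ) := by
    push_cast
    rw [Finset.sum_congr rfl fun m _ => cn_eq (a : ZMod n) L m, ← Finset.sum_div, Finset.sum_comm,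
      Finset.sum_congr rfl fun q _ => Fb_sum b (-((a : ZMod n) * ((q.1 : ZMod n) - q.2))),
      ← Finset.sum_filter, Finset.sum_const, nsmul_eq_mul, hC]
    ring
  have hval' : ∑ m ∈ Fb b, cn n a L m = ((Fb b).card * C / (n * L) : ℝ) :=
    Complex.ofReal_injective hval
  have hC1 : C ≤ L * (L / g + 1) := by
    rw [hC]
    calc _ ≤ ((range L ×ˢ range L).filter fun q : ℕ × ℕ => q.1 % g = q.2 % g).card := by
          refine Finset.card_le_card ?_
          intro q hq
          rw [Finset.mem_filter] at hq ⊢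
          exact ⟨hq.1, all_one a b q.1 q.2 hq.2⟩
      _ ≤ L * (L / g + 1) := by
          rw [Finset.card_filter, Finset.sum_product]
          calc ∑ j ∈ range L, ∑ j' ∈ range L, (if j % g = j' % g then 1 else 0)
              ≤ ∑ j ∈ range L, (L / g + 1) := by
                refine Finset.sum_le_sum fun j _ => ?_
                rw [← Finset.card_filter]
                exact cnt g L j
            _ = L * (L / g + 1) := by
                rw [Finset.sum_const, Finset.card_range, smul_eq_mul]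
  have hF : (Fb b).card ≤ g := Fb_card b
  have h2 : (g : ℝ) * ((L / g : ℕ) : ℝ) ≤ L := by
    have : g * (L / g) ≤ L := Nat.mul_div_le L g
    exact_mod_cast this
  have h3 : ((Fb b).card : ℝ) * C ≤ g * (L * ((L / g : ℕ) + 1)) := by
    have : (Fb b).card * C ≤ g * (L * (L / g + 1)) := Nat.mul_le_mul hF hC1
    exact_mod_cast this
  rw [hval']
  have hLc : (2 * (A : ℝ) + 1) = (L : ℝ) := by
    rw [hL]
    push_cast
    ring
  rw [hLc, div_le_div_iff₀ (by positivity) hnR]
  have h4 : (g : ℝ) * (L * ((L / g : ℕ) + 1)) ≤ (L + g) * L := by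
    have : (g : ℝ) * (L * ((L / g : ℕ) + 1)) = L * (g * ((L / g : ℕ) : ℝ) + g) := by ring
    rw [this]
    nlinarith
  calc ((Fb b).card : ℝ) * C * n ≤ ((L + g) * L) * n := by
        refine mul_le_mul_of_nonneg_right (h3.trans h4) hnR.le
    _ = (L + g) * (n * L) := by ring

private theorem part5 {p : ℕ} [NeZero p] (a : ZMod p) (A : ℕ) (x : ZMod p) :
    (nb p a A x : ℝ) ≤ 2 * cw p a (2 * A + 1) x := by
  classical
  have hA : (0 : ℝ) < 2 * (A : ℝ) + 1 := by positivity
  have h1 : (((Icc (-(A : ℤ)) A).filter fun h : ℤ => a * (h : ZMod p) = x) ×ˢ range (A + 1)).card ≤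
      ((range (2 * A + 1) ×ˢ range (2 * A + 1)).filter
        fun q : ℕ × ℕ => a * ((q.1 : ZMod p) - q.2) = x).card := by
    refine Finset.card_le_card_of_injOn
      (fun t : ℤ × ℕ => (t.2 + t.1.toNat, t.2 + (-t.1).toNat)) ?_ ?_
    · rintro ⟨h, i⟩ ht
      have ht' := Finset.mem_product.1 ht
      have h2 := Finset.mem_filter.1 ht'.1
      have h3 := Finset.mem_Icc.1 h2.1
      have h4 := Finset.mem_range.1 ht'.2
      simp only at h2 h3 h4
      simp only [Finset.coe_filter, Finset.mem_product, Finset.mem_range, Set.mem_ofPred_eq]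
      refine ⟨⟨by omega, by omega⟩, ?_⟩
      have h5 : ((i + h.toNat : ℕ) : ℤ) - ((i + (-h).toNat : ℕ) : ℤ) = h := by
        push_cast
        omega
      have h6 : ((i + h.toNat : ℕ) : ZMod p) - ((i + (-h).toNat : ℕ) : ZMod p) = (h : ZMod p) := by
        have := congrArg (Int.cast : ℤ → ZMod p) h5
        rw [Int.cast_sub, Int.cast_natCast, Int.cast_natCast] at this
        exact this
      rw [h6]
      exact h2.2
    · rintro ⟨h, i⟩ _ ⟨h', i'⟩ _ he
      simp only [Prod.mk.injEq] at he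
      obtain ⟨e1, e2⟩ := he
      have : h = h' := by omega
      subst this
      have : i = i' := by omega
      rw [this]
  rw [Finset.card_product, Finset.card_range] at h1
  have h2 : nb p a A x * (A + 1) ≤ ((range (2 * A + 1) ×ˢ range (2 * A + 1)).filter
        fun q : ℕ × ℕ => a * ((q.1 : ZMod p) - q.2) = x).card := by
    unfold nb
    convert h1
  obtain ⟨K, hK, hc⟩ : ∃ K : ℕ, nb p a A x * (A + 1) ≤ K ∧
      cw p a (2 * A + 1) x = (K : ℝ) / (2 * (A : ℝ) + 1) := by
    refine ⟨_, h2, ?_⟩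
    unfold cw
    push_cast
    congr
  have h3 : (nb p a A x : ℝ) * ((A : ℝ) + 1) ≤ K := by exact_mod_cast hK
  have h0 : (0 : ℝ) ≤ (nb p a A x : ℝ) := Nat.cast_nonneg _
  rw [hc, mul_div_assoc', le_div_iff₀ hA]
  nlinarith

theorem hWTN : StWTN := by
  intro n _ a A
  refine ⟨fun m => ?_, part2 _ _, part3 a A, part5 _ A⟩
  unfold cn
  positivity

end Pool.Agent.Helper2.HY
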